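import Pool.Agent.H39.Newt4.Stmts

/-! # Project NEWTON4: module KLS -/

set_option autoImplicit false

namespace Pool.Newt4

open MvPolynomial Pool.Agent.H39.MonoR Pool.Agent.H75.Mono Pool.Newt Pool.Newt2 Pool.Newt3

namespace KLS33

variable {σ I : Type} [Fintype σ] [Fintype I]

omit [Fintype I] in
theorem dot_cast (a : I → σ → ℕ) (w : σ → ℕ) (i : I) :
    ((dot w (a i) : ℕ) : ℝ) = ∑ l, (w l : ℝ) * (a i l : ℝ) := by
  simp [dot]

/-- the ratio of a weight supported on `Wf` whose face contains `T` -/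
theorem ratio (a : I → σ → ℕ) (α : ℚ) (Wf : Finset σ) (T : Finset I) (t0 : I → ℝ)
    (h1 : ∑ i, t0 i = α) (h2 : ∀ l ∈ Wf, ∑ i, (a i l : ℝ) * t0 i = -1)
    (h3 : ∀ i, i ∉ T → t0 i ≤ 0) (w : σ → ℕ) (hw : ∀ l, l ∉ Wf → w l = 0)
    (hT : ∀ i ∈ T, i ∈ face a w) : -α * (Nw a w : ℚ) ≤ ((∑ l, w l : ℕ) : ℚ) := by
  have e1 : -((∑ l, w l : ℕ) : ℝ) = ∑ i, t0 i * ((dot w (a i) : ℕ) : ℝ) := by
    have : ∀ l, -(w l : ℝ) = ∑ i, t0 i * ((w l : ℝ) * (a i l : ℝ)) := by
      intro l
      by_cases hl : l ∈ Wf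
      · calc -(w l : ℝ) = (w l : ℝ) * (-1) := by ring
          _ = (w l : ℝ) * ∑ i, (a i l : ℝ) * t0 i := by rw [h2 l hl]
          _ = _ := by
            rw [Finset.mul_sum]
            exact Finset.sum_congr rfl fun i _ => by ring
      · rw [hw l hl]
        simp
    calc -((∑ l, w l : ℕ) : ℝ) = ∑ l, -(w l : ℝ) := by
          push_cast
          rw [Finset.sum_neg_distrib]
      _ = ∑ l, ∑ i, t0 i * ((w l : ℝ) * (a i l : ℝ)) := Finset.sum_congr rfl fun l _ => this l
      _ = ∑ i, ∑ l, t0 i * ((w l : ℝ) * (a i l : ℝ)) := Finset.sum_comm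
      _ = _ := by
        refine Finset.sum_congr rfl fun i _ => ?_
        rw [dot_cast, Finset.mul_sum]
  have e2 : ∑ i, t0 i * ((dot w (a i) : ℕ) : ℝ) ≤ ∑ i, t0 i * (Nw a w : ℝ) := by
    refine Finset.sum_le_sum fun i _ => ?_
    by_cases hi : i ∈ T
    · rw [Nw_eq (hT i hi)]
    · have h5 : ((Nw a w : ℕ) : ℝ) ≤ ((dot w (a i) : ℕ) : ℝ) := by exact_mod_cast Nw_le a w i
      exact mul_le_mul_of_nonpos_left h5 (h3 i hi)
  rw [← Finset.sum_mul, h1, ← e1] at e2
  have e3 : ((-α * (Nw a w : ℚ) : ℚ) : ℝ) ≤ (((∑ l, w l : ℕ) : ℚ) : ℝ) := by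
    push_cast
    push_cast at e2
    linarith
  exact_mod_cast e3

end KLS33

/-- KLS -/
theorem sKls (hFnr : SFnr) (hExt : SExt) : SKls := by
  classical
  intro σ I _ _ _ a α Wf S T Q t0 h1 h2 h3 hN hQ c
  let Sl : Finset (Co σ I) :=
    (Finset.univ.filter fun l => l ∉ Wf).image (fun l => some (Sum.inl l)) ∪
      (S ∪ T).image (fun i => some (Sum.inr i))
  obtain ⟨N0, hN0⟩ := hFnr σ I a Sl c (by
    intro w m hpos hz
    by_contra hm
    have hm' : 0 < m := Nat.pos_of_ne_zero hm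
    have hw : ∀ l, l ∉ Wf → w l = 0 := by
      intro l hl
      have h5 := hz (some (Sum.inl l)) (by
        simp only [Sl, Finset.mem_union, Finset.mem_image, Finset.mem_filter]
        exact Or.inl ⟨l, ⟨Finset.mem_univ _, hl⟩, rfl⟩)
      have h6 : (w l : ℤ) = 0 := h5
      exact_mod_cast h6
    have hdot : ∀ i, ((dot w (a i) : ℕ) : ℤ) = ∑ l, (w l : ℤ) * (a i l : ℤ) := by
      intro i
      simp [dot]
    have hge : ∀ i, m ≤ dot w (a i) := by
      intro i
      have h5 : (0 : ℤ) ≤ (∑ l, (w l : ℤ) * (a i l : ℤ)) - m := hpos (some (Sum.inr i))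
      rw [← hdot] at h5
      omega
    have heq : ∀ i, i ∈ S ∨ i ∈ T → dot w (a i) = m := by
      intro i hi
      have h5 := hz (some (Sum.inr i)) (by
        simp only [Sl, Finset.mem_union, Finset.mem_image]
        exact Or.inr ⟨i, hi, rfl⟩)
      have h6 : (∑ l, (w l : ℤ) * (a i l : ℤ)) - m = 0 := h5
      rw [← hdot] at h6
      omega
    have hface : ∀ i, i ∈ S ∨ i ∈ T → i ∈ face a w := by
      intro i hi i'
      rw [heq i hi]
      exact hge i'
    obtain ⟨i0, hi0⟩ := exists_mem_face a w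
    obtain ⟨D, r, v, ms, p, hD, hv, hp, hsum⟩ := hExt σ I a w
    have hsum' : D * dot w (a i0) = ∑ s, ms s * dot (v s) (a i0) := by
      have h7 : ∀ l, D * w l * a i0 l = (∑ s, ms s * (v s l * a i0 l)) + p l * a i0 l := by
        intro l
        rw [hsum l, add_mul, Finset.sum_mul]
        congr 1
        exact Finset.sum_congr rfl fun s _ => by ring
      have h8 : ∀ l, p l * a i0 l = 0 := by
        intro l
        by_cases hl : p l = 0
        · rw [hl, zero_mul]
        · rw [hp l hl i0 hi0, mul_zero]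
      calc D * dot w (a i0) = ∑ l, D * w l * a i0 l := by
            rw [dot, Finset.mul_sum]
            exact Finset.sum_congr rfl fun l _ => by ring
        _ = ∑ l, ∑ s, ms s * (v s l * a i0 l) := by
            refine Finset.sum_congr rfl fun l _ => ?_
            rw [h7 l, h8 l, add_zero]
        _ = ∑ s, ∑ l, ms s * (v s l * a i0 l) := Finset.sum_comm
        _ = _ := by
            refine Finset.sum_congr rfl fun s _ => ?_
            rw [dot, Finset.mul_sum]
    have hposD : 0 < D * dot w (a i0) := Nat.mul_pos hD (lt_of_lt_of_le hm' (hge i0))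
    obtain ⟨s, hs⟩ : ∃ s, ms s ≠ 0 := by
      by_contra hcon
      push Not at hcon
      rw [hsum'] at hposD
      simp [hcon] at hposD
    obtain ⟨hR, hNp, hsub⟩ := hv s
    have hvW : ∀ l, l ∉ Wf → v s l = 0 := by
      intro l hl
      have h9 := hsum l
      rw [hw l hl, mul_zero] at h9
      have h10 : ∑ s, ms s * v s l = 0 := by omega
      have h11 := (Finset.sum_eq_zero_iff.1 h10) s (Finset.mem_univ _)
      exact (Nat.mul_eq_zero.1 h11).resolve_left hs
    refine hN (v s) hR hNp ?_ fun i hi => hsub (hface i hi)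
    exact KLS33.ratio a α Wf T t0 h1 h2 h3 (v s) hvW fun i hi => hsub (hface i (Or.inr hi)))
  refine ⟨N0, fun u N hN' hu huW hlo hup => hN0 u N hN' ?_ ?_⟩
  · intro ξ
    rcases ξ with _ | l | i
    · show -(c : ℤ) ≤ (N : ℤ)
      omega
    · show -(c : ℤ) ≤ u l
      have := hu l
      omega
    · exact hlo i
  · intro ξ hξ
    simp only [Sl, Finset.mem_union, Finset.mem_image, Finset.mem_filter] at hξ
    rcases hξ with ⟨l, ⟨-, hl⟩, rfl⟩ | ⟨i, hi, rfl⟩
    · show u l ≤ (c : ℤ)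
      rw [huW l hl]
      omega
    · exact hup i (hQ i hi)

end Pool.Newt4
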