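import Pool.Agent.H39.Newt4.Stmts

/-! # Project NEWTON4: module LCF -/

set_option autoImplicit false

namespace Pool.Newt4

open MvPolynomial Pool.Agent.H39.MonoR Pool.Agent.H75.Mono Pool.Newt Pool.Newt2 Pool.Newt3

/-- LCF -/
theorem sLcf : SLcf := by
  classical
  intro σ I _ _ _ a w hK s γ
  let B : ℤ := |(∑ l, (w l : ℤ) * γ l) - s * (Nw a w : ℤ)|
  refine Set.Finite.of_injOn (f := fun (δ : I → ℤ) (i : I) => if i ∈ face a w then (0 : ℤ) else δ i)
    (t := Set.Icc (0 : I → ℤ) (fun _ => B)) ?_ ?_ (Set.finite_Icc _ _)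
  · rintro δ ⟨h1, h2, h3⟩
    have hB : ∑ i, δ i * (((dot w (a i) : ℕ) : ℤ) - (Nw a w : ℤ)) ≤ B := by
      have e1 : ∑ i, δ i * (((dot w (a i) : ℕ) : ℤ) - (Nw a w : ℤ)) =
          (∑ l, (w l : ℤ) * γ l) - s * (Nw a w : ℤ) := by
        calc ∑ i, δ i * (((dot w (a i) : ℕ) : ℤ) - (Nw a w : ℤ)) =
            (∑ i, δ i * ((dot w (a i) : ℕ) : ℤ)) - (∑ i, δ i) * (Nw a w : ℤ) := by
              rw [Finset.sum_mul, ← Finset.sum_sub_distrib]
              exact Finset.sum_congr rfl fun i _ => by ring
          _ = (∑ l, (w l : ℤ) * γ l) - s * (Nw a w : ℤ) := by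
              rw [h1]
              congr 1
              calc ∑ i, δ i * ((dot w (a i) : ℕ) : ℤ) =
                  ∑ i, ∑ l, (w l : ℤ) * (δ i * (a i l : ℤ)) := by
                    refine Finset.sum_congr rfl fun i _ => ?_
                    rw [dot]
                    push_cast
                    rw [Finset.mul_sum]
                    exact Finset.sum_congr rfl fun l _ => by ring
                _ = ∑ l, ∑ i, (w l : ℤ) * (δ i * (a i l : ℤ)) := Finset.sum_comm
                _ = _ := by
                    refine Finset.sum_congr rfl fun l _ => ?_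
                    rw [← Finset.mul_sum, h2 l]
      rw [e1]
      exact le_abs_self _
    have hnn : ∀ i, 0 ≤ δ i * (((dot w (a i) : ℕ) : ℤ) - (Nw a w : ℤ)) := by
      intro i
      by_cases hi : i ∈ face a w
      · rw [Nw_eq hi, sub_self, mul_zero]
      · refine mul_nonneg (h3 i hi) ?_
        have := Nw_le a w i
        omega
    rw [Set.mem_Icc]
    constructor
    · intro i
      show (0 : ℤ) ≤ if i ∈ face a w then (0 : ℤ) else δ i
      split_ifs with hi
      · exact le_refl _
      · exact h3 i hi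
    · intro i
      show (if i ∈ face a w then (0 : ℤ) else δ i) ≤ B
      split_ifs with hi
      · exact abs_nonneg _
      · have h4 : δ i * (((dot w (a i) : ℕ) : ℤ) - (Nw a w : ℤ)) ≤ B :=
          (Finset.single_le_sum (fun j _ => hnn j) (Finset.mem_univ i)).trans hB
        have h5 : (1 : ℤ) ≤ ((dot w (a i) : ℕ) : ℤ) - (Nw a w : ℤ) := by
          have := lt_of_not_mem_face hi
          omega
        nlinarith [h3 i hi]
  · rintro δ ⟨h1, h2, -⟩ δ' ⟨h1', h2', -⟩ he
    have h6 : δ - δ' = 0 := by
      refine hK (δ - δ') ⟨?_, fun l => ?_⟩ fun i hi => ?_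
      · simp only [Pi.sub_apply, Finset.sum_sub_distrib, h1, h1', sub_self]
      · simp only [Pi.sub_apply, sub_mul, Finset.sum_sub_distrib, h2, h2', sub_self]
      · have h7 := congrFun he i
        simp only [if_neg hi] at h7
        rw [Pi.sub_apply, h7, sub_self]
    exact sub_eq_zero.1 h6

end Pool.Newt4
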